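import Pool.Agent.Helper54.CG.Goals

set_option autoImplicit false

namespace Pool.Agent.Helper51.CG.CH

open MvPolynomial Pool.Agent.Helper54.CG
open Pool.Agent.Helper16.Cusp (R V dd)

theorem dd_add (a b : R) (v u : V) : dd (a + b) v u = dd a v u + dd b v u := by
  unfold dd
  rw [← Finset.sum_add_distrib]
  refine Finset.sum_congr rfl fun i _ => ?_
  rw [map_add, map_add]
  ring

theorem dd_mul (a b : R) (v u : V) :
    dd (a * b) v u = dd a v u * eval v b + eval v a * dd b v u := by
  unfold dd
  rw [Finset.sum_mul, Finset.mul_sum, ← Finset.sum_add_distrib]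
  refine Finset.sum_congr rfl fun i _ => ?_
  rw [Derivation.leibniz, map_add, smul_eq_mul, smul_eq_mul, map_mul, map_mul]
  ring

theorem dd_C (c : ℂ) (v u : V) : dd (C c) v u = 0 := by
  unfold dd
  simp

theorem dd_X (j : Fin 3) (v u : V) : dd (X j) v u = u j := by
  unfold dd
  simp [pderiv_X, Pi.single_apply]

theorem eval_pull (F : R) (v : V) : eval v (pull F) = eval (phi v) F := by
  unfold pull phi
  induction F using MvPolynomial.induction_on with
  | C c => simp [MvPolynomial.algebraMap_eq]
  | add p q hp hq => rw [map_add, map_add, map_add, hp, hq]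
  | mul_X p j hp => rw [map_mul, map_mul, map_mul, hp, aeval_X, eval_X]

theorem t : G_CH := by
  intro F v u
  induction F using MvPolynomial.induction_on with
  | C c =>
    have : pull (C c) = C c := by simp [pull, MvPolynomial.algebraMap_eq]
    rw [this, dd_C, dd_C]
  | add p q hp hq =>
    have : pull (p + q) = pull p + pull q := by simp [pull]
    rw [this, dd_add, dd_add, hp, hq]
  | mul_X p j hp =>
    have : pull (p * X j) = pull p * ff j := by simp [pull]
    rw [this, dd_mul, dd_mul, hp, dd_X, eval_pull, eval_X]
    rfl

end Pool.Agent.Helper51.CG.CH
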